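import Mathlib
import Pool.Agent.Q11.QSerreE

set_option autoImplicit false

namespace Pool.Agent.Results.MP_cafee0_al.CenterTrivial

open Pool.Agent.Q11.QSerre

universe u

/-- For every field `K` and every nonzero `q ∈ K` which is not a root of unity, the center of
`U^+ = U_q(sl_2^)^{>0}` (two generators, the two cubic q-Serre relations `Rel K q`) is `K 1`: it
is the bottom subalgebra, it is generated by the empty set, and it is isomorphic to `K` (the
structure map `K → U^+` is injective). -/
theorem result (K : Type u) [Field K] (q : K) (hq0 : q ≠ 0)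
    (hq : ∀ n : ℕ, 0 < n → q ^ n ≠ 1) :
    Subalgebra.center K (RingQuot (Rel K q)) = ⊥ ∧
      Subalgebra.center K (RingQuot (Rel K q)) =
        Algebra.adjoin K (∅ : Set (RingQuot (Rel K q))) ∧
      Function.Injective (algebraMap K (RingQuot (Rel K q))) := by
  have h1 : Subalgebra.center K (RingQuot (Rel K q)) = ⊥ := center_eq_bot K q hq0 hq
  have h2 : Function.Injective (algebraMap K (RingQuot (Rel K q))) := algebraMap_injective K q
  exact ⟨h1, h1.trans (Algebra.adjoin_empty K _).symm, h2⟩

end Pool.Agent.Results.MP_cafee0_al.CenterTrivial
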